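import Pool.Agent.Lib.MP_b5021c_nt.IfaceOF
import Pool.Agent.Lib.MP_b5021c_nt.SF.H40.Tza

/-!
# Board b5, stage 3, leaf (O-f), row OF_ONE (helper79): the two inequalities from `C₁`
-/

namespace Pool.Agent.B5.H79of1

open scoped LaurentPolynomial
open Polynomial
open Pool.Agent.B5 Pool.Agent.B5.SFH40

/-- Constant coefficient of the weight. -/
theorem wt_zero (b t0 t1 : ℝ) (p : ℂ[X]) (h0 : p.coeff 0 = (t0 : ℂ))
    (h1 : p.coeff 1 = ((2 * t1 : ℝ) : ℂ)) :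
    ((wt b t0 p).coeff 0).re = (1 + b ^ 2) * t0 - 2 * b * t1 := by
  unfold wt
  simp only [coeff_sub, coeff_C_mul, coeff_X_mul_zero, coeff_divX, coeff_X_zero, mul_zero,
    sub_zero, zero_add]
  rw [h0, h1, ← Complex.ofReal_mul, ← Complex.ofReal_mul, ← Complex.ofReal_sub,
    Complex.ofReal_re]
  ring

/-- Value of the weight at its own point. -/
theorem wt_self (b t0 : ℝ) (p : ℂ[X]) (h0 : p.coeff 0 = (t0 : ℂ)) :
    (wt b t0 p).eval (b : ℂ) = (((1 - b ^ 2) * t0 : ℝ) : ℂ) := by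
  have hd := eval_divX p (b : ℂ)
  rw [h0] at hd
  unfold wt
  simp only [eval_sub, eval_mul, eval_C, eval_X]
  push_cast
  linear_combination (-1 : ℂ) * hd

/-- The comparison of the two weights on the circle. -/
theorem wt_cmp {a b : ℝ} (ha1 : a < 1) (hab : a ≤ b) (hb1 : b ≤ 1) (ha0 : 0 < a) {z : ℂ}
    (hz : ‖z‖ = 1) :
    ((1 - b) / (1 - a)) ^ 2 * ‖z - (a : ℂ)‖ ^ 2 ≤ ‖z - (b : ℂ)‖ ^ 2 := by
  have h1 : z.re ^ 2 + z.im ^ 2 = 1 := by
    have := Complex.sq_norm z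
    rw [hz, Complex.normSq_apply] at this
    nlinarith
  have e : ∀ x : ℝ, ‖z - (x : ℂ)‖ ^ 2 = 1 - 2 * x * z.re + x ^ 2 := by
    intro x
    rw [Complex.sq_norm, Complex.normSq_apply]
    simp only [Complex.sub_re, Complex.ofReal_re, Complex.ofReal_im, Complex.sub_im]
    linear_combination h1
  rw [e, e, div_pow, div_mul_eq_mul_div, div_le_iff₀ (by nlinarith)]
  have hc : z.re ≤ 1 := by nlinarith [sq_nonneg z.im]
  have h2 : 0 ≤ (1 - z.re) * ((b - a) * (1 - a * b)) := by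
    refine mul_nonneg (by linarith) (mul_nonneg (by linarith) ?_)
    nlinarith
  nlinarith [h2]

/-- Row OF_ONE. -/
theorem on1 (hCZM : CzmS) (hPmf : PmfS) (hNr : Nr3S) : On1S := by
  intro q f a T' s W t k hLD hC1 ha0 ha1 hqa hq0 hf hN hMass hk
  have hainv : (a⁻¹)⁻¹ = a := inv_inv a
  have haa : a⁻¹ * a = 1 := inv_mul_cancel₀ ha0.ne'
  have haT : 1 < |a⁻¹| := by
    rw [abs_of_pos (inv_pos.2 ha0)]
    exact (one_lt_inv₀ ha0).2 ha1
  have hq : (cpz q).eval (((a⁻¹)⁻¹ : ℝ) : ℂ) = 0 := by rw [hainv]; exact hqa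
  have e0 : ∀ x : ℤ, (Coef.emb x : ℂ) = (x : ℂ) := fun x => rfl
  -- symmetry
  have hsym : rsh t = t := by
    rcases eq_or_ne t 0 with ht | ht
    · rw [ht]
      refine LaurentPolynomial.ext fun k => ?_
      rw [H17.rsh_coeff]
      rfl
    · obtain ⟨-, hk, -⟩ := hNr ℤ t ht hN
      refine LaurentPolynomial.ext fun k => ?_
      rw [H17.rsh_coeff]
      by_cases hk0 : k = 0
      · subst hk0
        rfl
      · have h := (hk k hk0).2
        rw [e0, e0] at h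
        have h3 : t.coeff (-k) = t.coeff k := by
          have h4 : (starRingEnd ℂ) ((t.coeff k : ℤ) : ℂ) = ((t.coeff k : ℤ) : ℂ) := by simp
          rw [h4] at h
          exact_mod_cast h
        rw [h3]
        rfl
  obtain ⟨r, hr0, hre, -, hrn⟩ := hPmf ℤ t 0 (by simp) hsym
  have hv : ∀ z : ℂ, ‖z‖ = 1 → (r.eval z).re * ‖(cpz (q + X * f)).eval z‖ ^ 2 ≤
      ((cpz (q - X * f)).eval z * (starRingEnd ℂ) ((cpz (q + X * f)).eval z)).re ∧
      0 ≤ (r.eval z).re := by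
    intro z hz
    have h := hMass ⟨z, mem_sphere_zero_iff_norm.mpr hz⟩
    have h3 := hre ⟨z, mem_sphere_zero_iff_norm.mpr hz⟩
    have h4 := (hN ⟨z, mem_sphere_zero_iff_norm.mpr hz⟩).2
    rw [h3] at h h4
    exact ⟨h, h4⟩
  have hpos : ∀ z : ℂ, ‖z‖ = 1 →
      0 ≤ ((cpz (q - X * f)).eval z * (starRingEnd ℂ) ((cpz (q + X * f)).eval z)).re :=
    fun z hz => (mul_nonneg (hv z hz).2 (sq_nonneg _)).trans (hv z hz).1
  have hr0' : r.coeff 0 = ((t.coeff 0 : ℝ) : ℂ) := by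
    rw [hr0, e0]; simp
  have hr1' : r.coeff 1 = ((2 * t.coeff 1 : ℝ) : ℂ) := by
    have := hrn 0
    rw [e0] at this
    simpa using this
  obtain ⟨b, hb⟩ : ∃ b : ℝ, b = T'⁻¹ := ⟨_, rfl⟩
  obtain ⟨u, hu⟩ : ∃ u : ℝ, u = ((f.coeff 0 : ℤ) : ℝ) := ⟨_, rfl⟩
  obtain ⟨x0, hx0⟩ : ∃ x : ℝ, x = ((t.coeff 0 : ℤ) : ℝ) := ⟨_, rfl⟩
  obtain ⟨x1, hx1⟩ : ∃ x : ℝ, x = ((t.coeff 1 : ℤ) : ℝ) := ⟨_, rfl⟩
  have hu1 : 1 ≤ u := by rw [hu]; exact_mod_cast hf
  have hfq : ((f.coeff 0 * q.coeff 0 : ℤ) : ℝ) = u := by rw [hq0, mul_one, hu]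
  -- the sign
  obtain ⟨h0i, h0ii⟩ := hCZM q f a⁻¹ T' s W 0 hLD hC1 haT hq (by
    intro z hz
    rw [eval_zero, Complex.zero_re, zero_mul]
    exact mul_nonneg (by positivity) (hpos z hz))
  rw [coeff_zero, Complex.zero_re, hfq, ← hb] at h0i
  rw [eval_zero, coeff_zero, Complex.zero_re, zero_add, sub_zero, hainv, hfq, ← hb,
    abs_of_pos ha0] at h0ii
  have hQ0 : 0 ≤ (1 - a) / (1 + a) := div_nonneg (by linarith) (by linarith)
  have hb0 : 0 < b := by
    have h1 := mul_nonneg hQ0 h0i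
    have h2 : 0 < b * a⁻¹ := by nlinarith [sq_nonneg b]
    exact (mul_pos_iff_of_pos_right (inv_pos.2 ha0)).1 h2
  have hT'0 : T' ≠ 0 := by
    rintro rfl
    rw [inv_zero] at hb
    linarith
  have hbT : b * T' = 1 := by rw [hb]; exact inv_mul_cancel₀ hT'0
  have hT'p : 0 < T' := by
    by_contra hc
    push Not at hc
    nlinarith
  have hT'1 : 1 ≤ T' := by
    have := hC1.one
    rwa [abs_of_pos hT'p] at this
  have hb1 : b ≤ 1 := by nlinarith
  obtain ⟨Q, hQ⟩ : ∃ Q : ℝ, Q = (1 - a) / (1 + a) := ⟨_, rfl⟩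
  have hQa : Q * (1 + a) = 1 - a := by
    rw [hQ]
    exact div_mul_cancel₀ _ (by linarith)
  rw [← hQ] at h0ii
  -- `a ≤ b`
  have hfin : ∀ g : ℝ, g + Q * (1 + b ^ 2 + 2 * b * u) ≤ 2 * b * a⁻¹ - 1 - b ^ 2 →
      g * ((1 + a) / 2) + b * (T' + b + u * (1 - a)) ≤ b * (a⁻¹ + 1) := by
    intro g hg
    have hmul := mul_le_mul_of_nonneg_right hg (show 0 ≤ (1 + a) / 2 by linarith)
    have e1 : (g + Q * (1 + b ^ 2 + 2 * b * u)) * ((1 + a) / 2) =
        g * ((1 + a) / 2) + (1 - a) * (1 + b ^ 2 + 2 * b * u) / 2 := by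
      linear_combination ((1 + b ^ 2 + 2 * b * u) / 2) * hQa
    have e2 : (2 * b * a⁻¹ - 1 - b ^ 2) * ((1 + a) / 2) =
        b * (a⁻¹ + 1) - (1 + b ^ 2) * (1 + a) / 2 := by
      linear_combination b * haa
    rw [e1, e2] at hmul
    have e3 : b * (T' + b + u * (1 - a)) = (1 + b ^ 2) + b * u * (1 - a) := by
      linear_combination hbT
    rw [e3]
    nlinarith [hmul]
  have hXa : T' + b + u * (1 - a) ≤ a⁻¹ + 1 := by
    have h1 := hfin 0 (by rw [zero_add]; exact h0ii)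
    rw [zero_mul, zero_add] at h1
    exact le_of_mul_le_mul_left h1 hb0
  have hab : a ≤ b := by
    by_contra hc
    push Not at hc
    have h1 : T' + b ≤ a⁻¹ + a := by nlinarith
    -- multiply by `a b`: `(a - b)(1 - ab) ≤ 0`
    have h2 : a * b * (T' + b) ≤ a * b * (a⁻¹ + a) :=
      mul_le_mul_of_nonneg_left h1 (by positivity)
    have h3 : a * b * (T' + b) = a * (1 + b ^ 2) := by linear_combination a * hbT
    have h4 : a * b * (a⁻¹ + a) = b * (1 + a ^ 2) := by linear_combination b * haa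
    rw [h3, h4] at h2
    have h5 : 0 < (a - b) * (1 - a * b) := mul_pos (by linarith) (by nlinarith)
    nlinarith
  -- (i)
  have hA := (hCZM q f a⁻¹ T' s W (wt b (t.coeff 0) r) hLD hC1 haT hq (by
    intro z hz
    rw [wt_re b _ r hr0' z hz, ← hb, mul_assoc]
    exact mul_le_mul_of_nonneg_left (hv z hz).1 (sq_nonneg _))).1
  rw [wt_zero b _ _ r hr0' hr1', hfq, ← hb, ← hx0, ← hx1] at hA
  have hI : (x0 - 1) * (T' + b) ≤ 2 * (u + x1) := by
    have h1 : b * ((x0 - 1) * (T' + b)) ≤ b * (2 * (u + x1)) := by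
      have e3 : b * ((x0 - 1) * (T' + b)) = (x0 - 1) * (1 + b ^ 2) := by
        linear_combination (x0 - 1) * hbT
      rw [e3]
      nlinarith [hA]
    exact le_of_mul_le_mul_left h1 hb0
  -- (ii)
  obtain ⟨K, hK⟩ : ∃ K : ℝ, K = ((1 - b) / (1 - a)) ^ 2 := ⟨_, rfl⟩
  have hKa : K * (1 - a) ^ 2 = (1 - b) ^ 2 := by
    rw [hK, div_pow]
    exact div_mul_cancel₀ _ (by nlinarith)
  have hB := (hCZM q f a⁻¹ T' s W (C (K : ℂ) * wt a (t.coeff 0) r) hLD hC1 haT hq (by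
    intro z hz
    rw [eval_mul, eval_C, Complex.re_ofReal_mul, wt_re a _ r hr0' z hz, ← hb, ← mul_assoc,
      mul_assoc]
    have h1 := wt_cmp ha1 hab hb1 ha0 hz
    rw [← hK] at h1
    exact (mul_le_mul_of_nonneg_left (hv z hz).1 (by rw [hK]; positivity)).trans
      (mul_le_mul_of_nonneg_right h1 (hpos z hz)))).2
  rw [eval_mul, eval_C, Complex.re_ofReal_mul, hainv, wt_self a _ r hr0', Complex.ofReal_re,
    coeff_C_mul, Complex.re_ofReal_mul, wt_zero a _ _ r hr0' hr1', hfq, ← hb, ← hx0, ← hx1,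
    abs_of_pos ha0, ← hQ] at hB
  have hB2 := hfin (2 * a * Q * K * (x0 + x1)) (by
    have e4 : K * ((1 - a ^ 2) * x0) = K * Q * (1 + a) ^ 2 * x0 := by
      linear_combination (-(K * (1 + a) * x0)) * hQa
    rw [e4] at hB
    nlinarith [hB])
  have hgain : 2 * a * Q * K * (x0 + x1) * ((1 + a) / 2) =
      b * ((x0 + x1) * (a / (1 - a) * (T' + b - 2))) := by
    have h1a : (1 - a) ≠ 0 := by linarith
    have e5 : a / (1 - a) * (1 - a) = a := div_mul_cancel₀ _ h1a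
    have e6 : b * (T' + b - 2) = (1 - b) ^ 2 := by linear_combination hbT
    have e7 : b * ((x0 + x1) * (a / (1 - a) * (T' + b - 2))) =
        (x0 + x1) * (a / (1 - a)) * (1 - b) ^ 2 := by
      rw [← e6]; ring
    rw [e7, ← hKa]
    linear_combination (a * K * (x0 + x1)) * hQa - (K * (1 - a) * (x0 + x1)) * e5
  rw [hgain, ← mul_add] at hB2
  have hB3 := le_of_mul_le_mul_left hB2 hb0
  have hkx : (k : ℝ) ≤ x0 + x1 := by
    rw [hx0, hx1]
    exact_mod_cast hk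
  have hXp : 0 ≤ a / (1 - a) * (T' + b - 2) := by
    refine mul_nonneg (div_nonneg ha0.le (by linarith)) ?_
    have h1 : 0 ≤ b * (T' + b - 2) := by
      have e6 : b * (T' + b - 2) = (1 - b) ^ 2 := by linear_combination hbT
      rw [e6]; positivity
    exact nonneg_of_mul_nonneg_right h1 hb0
  have hkk := mul_le_mul_of_nonneg_right hkx hXp
  rw [← hb, ← hu, ← hx0, ← hx1]
  exact ⟨hT'1, hI, by linarith⟩

end Pool.Agent.B5.H79of1
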